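import Pool.Agent.W559.Et.All

/-!
MP_4d1008_ag: regular proper models over `ℤ` of the quotients of smooth projective varieties over
finite fields of characteristic `p` by cyclic groups of order dividing `p ^ 2 * m` whose elements
of `p`-power order are linear in etale coordinates near their fixed points.
-/

set_option autoImplicit false

open AlgebraicGeometry CategoryTheory MvPolynomial

namespace Pool.Agent.Results.MP_4d1008_ag.LocallyLinearQuotients

section

variable {k K : Type} [Field k] [Field K] [Algebra k K]

/-- The field extension `K` of `k` is generated by the ratios of the nonzero elements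
`z 0, …, z l`, and every algebra `k[z 0 / z i, …, z l / z i]` is smooth over `k`: the `z i` are the
homogeneous coordinates of a smooth projective variety over `k` with function field `K`. -/
structure IsSmoothProjective (k : Type) {K : Type} [Field k] [Field K] [Algebra k K] {l : ℕ}
    (z : Fin (l + 1) → K) : Prop where
  ne_zero : ∀ i, z i ≠ 0
  smooth : ∀ i, Algebra.Smooth k (Algebra.adjoin k (Set.range fun j => z j / z i))
  generate : IntermediateField.adjoin k (Set.range fun j => z j / z 0) = ⊤

/-- The subalgebra `O` of `K` is the local ring at a prime `q` of the subalgebra `A`: it consists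
of the fractions `a / b` with `a` and `b` in `A` and `b` not in `q`. -/
def IsLocalRingAt (A : Subalgebra k K) (q : Ideal A) (O : Subalgebra k K) : Prop :=
  q.IsPrime ∧ ∀ x, x ∈ O ↔ ∃ a b : A, b ∉ q ∧ x * b = a

/-- The subalgebra `O` of `K` is the local ring of a point of the projective variety with
homogeneous coordinates `z`. -/
def IsLocalRingOf {l : ℕ} (z : Fin (l + 1) → K) (O : Subalgebra k K) : Prop :=
  ∃ i, ∃ q : Ideal (Algebra.adjoin k (Set.range fun j => z j / z i)), IsLocalRingAt _ q O

/-- The automorphism `ρ` is linear in etale coordinates at the point with local ring `O`: if the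
point is fixed (`ρ` maps `O` to itself, and `ρ x - x` is not a unit of `O` for all `x` in `O`),
then there are elements `y i` of `O` whose linear span is mapped to itself by `ρ`, such that `O` is
formally etale over the polynomial ring in the `y i`. -/
def IsLinearAt (ρ : K ≃ₐ[k] K) (O : Subalgebra k K) : Prop :=
  (∀ x ∈ O, ρ x ∈ O ∧ ∀ x' ∈ O, (ρ x - x) * x' ≠ 1) →
    ∃ (n : ℕ) (y : Fin n → O),
      ((aeval y : MvPolynomial (Fin n) k →ₐ[k] O).toRingHom).FormallyEtale ∧
      ∀ i, ρ (y i) ∈ Submodule.span k (Set.range fun j => (y j : K))

/-- Every integral scheme of finite type over `ℤ` with function field isomorphic to the field `F`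
has a regular model which is proper over `ℤ`. -/
def HasRegularModels (F : Type) [Field F] : Prop :=
  ∀ (Y : Scheme.{0}) (_ : IsIntegral Y) (s : Y ⟶ Spec (CommRingCat.of ℤ))
    (_ : LocallyOfFiniteType s) (_ : QuasiCompact s) (_ : Nonempty (Y.functionField ≃+* F)),
    ∃ (X' : Scheme.{0}) (_ : IsIntegral X') (g : X' ⟶ Spec (CommRingCat.of ℤ)),
      IsProper g ∧
      (∀ x : X',
        (((Module.finrank (IsLocalRing.ResidueField (X'.presheaf.stalk x))
            (IsLocalRing.CotangentSpace (X'.presheaf.stalk x)) : ℕ∞)) : WithBot ℕ∞)
          = ringKrullDim (X'.presheaf.stalk x)) ∧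
      Nonempty (X'.functionField ≃+* Y.functionField)

end

/-- Let `k` be a finite field of characteristic `p` which contains a primitive `m`-th root of
unity `ω`. Let `V` be a smooth projective variety over `k` with homogeneous coordinates `z i` and
function field `L`, and `σ` an automorphism of `V` given by a linear substitution of the `z i`,
with `σ ^ (p ^ 2 * m) = 1`. Suppose that `σ ^ m` and `σ ^ (m * p)` (the generators of the two
nontrivial groups of automorphisms of `p`-power order generated by powers of `σ`) are linear in
etale coordinates at all their fixed points on `V`. Then every integral scheme of finite type over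
`ℤ` whose function field is isomorphic to the field of invariants of `σ` (the function field of the
quotient of `V` by `σ`) has a regular model proper over `ℤ`. -/
theorem result (p : ℕ) [Fact p.Prime] (k : Type) [Field k] [Finite k] [CharP k p]
    (m : ℕ) (hm : 0 < m) (ω : k) (hω : IsPrimitiveRoot ω m)
    (L : Type) [Field L] [Algebra k L] (l : ℕ) (z : Fin (l + 1) → L)
    (hz : IsSmoothProjective k z) (σ : L ≃ₐ[k] L) (hσ : σ ^ (p ^ 2 * m) = 1)
    (hlin : ∀ i, σ (z i) ∈ Submodule.span k (Set.range z))
    (hloc : ∀ O : Subalgebra k L, IsLocalRingOf z O →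
      IsLinearAt (σ ^ m) O ∧ IsLinearAt (σ ^ (m * p)) O) :
    HasRegularModels (IntermediateField.fixedField (Subgroup.zpowers σ)) := by
  have hp : p.Prime := Fact.out
  have hpk : (p : k) = 0 := CharP.cast_eq_zero k p
  intro Y hY s hs1 hs2 hYL
  refine Pool.Agent.W559.Et.gen_models hp hpk hm hω hz.ne_zero hz.smooth hz.generate σ hσ hlin
    ?_ Y hY s hs1 hs2 hYL
  intro i q hq
  have h1 := hloc (Pool.Agent.W559.Et.locR _ q hq) ⟨i, q, hq, fun x => Iff.rfl⟩
  exact ⟨h1.1, h1.2⟩

end Pool.Agent.Results.MP_4d1008_ag.LocallyLinearQuotients
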