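import Pool.Agent.W418.LCI.Field
import Pool.Agent.W418.Z.Reg

/-!
MP_4d1008_ag: regular models, proper over `ℤ`, of all integral schemes of finite type over `ℤ`
whose function field is generated over the function field `E` of a surface (or of a threefold, with
log smooth models as a hypothesis) over a finite field of characteristic `p` by finite-dimensional
subspaces `V 0, ..., V (n - 1)`, which satisfy a complete system of relations `f j = 0`, where the
`f j` are sums of products of elements of the `V s` whose degrees are independent modulo `p`, in
every dimension. Examples: all intersections of diagonal hypersurfaces of one degree prime to `p`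
over `E`; all quadrics over `E` for odd `p`; all abelian covers of exponent prime to `p` of affine
spaces over `E` with branch locus in a union of hyperplanes defined over `E`; the Artin-Schreier
covers `y ^ p - y = c * l 1 * ... * l a` with linear forms `l i` over `E` and `a` prime to `p`.

Built on the work of helper558 and his team (log resolution on surfaces, models of varieties with
torus action, complete intersections over surfaces): helpers 558, 973, 63, 417, 655, 498, 923 and
others, and on the library of helpers 920, 968, 918, 473.
-/

set_option autoImplicit false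

open AlgebraicGeometry CategoryTheory Pool.Agent.W558

namespace Pool.Agent.Results.MP_4d1008_ag.ProductsOfLinearForms

/-- The degree modulo `p` of a product of `d s` elements of `V s` for all `s` and of the powers
`f l ^ e l`, where `f l` has the degree `deg l`. -/
def degree {p n r : ℕ} (deg : Fin r → Fin n → ZMod p) (d : Fin n → ℕ) (e : Fin r → ℕ) :
    Fin n → ZMod p :=
  fun s => d s + ∑ l, e l * deg l s

/-- Let `k` be a finite field of characteristic `p`, `E` the function field of a smooth projective
surface over `k`, or an extension of `k` such that any finite family of nonzero elements of `E` has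
its zeros and poles in a simple normal crossings divisor on some smooth projective variety with
function field `E` (`HasLogModels`), and `K` a field extension of `E` which is generated by finite-dimensional
`E`-subspaces `V 0, ..., V (n - 1)`. Let `f 0, ..., f (r - 1)` be elements of `K` such that each
`f j` is a sum of terms, where a term is the product of a nonzero element `c j i` of `E`, of
`d j i s` nonzero elements `g j i s t` of `V s` for all `s`, and of powers of elements `f l ≠ 0`
with `l < j`. Give `f j` the degree (in `(ℤ/p)^n`) of its first term, and suppose that the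
differences of the degrees of the other terms of `f j` and the degree of `f j`, for all `j`
together, are linearly independent modulo `p`. Suppose that the relations `f j = 0` are complete:
the transcendence degree of `K` over `E` is the sum of the dimensions of the `V s` minus the number
of indices `j` with `f j = 0`. Then every integral scheme `Y` of finite type over `ℤ` whose
function field is isomorphic to `K` has a regular model proper over `ℤ`. -/
theorem result (p : ℕ) [Fact p.Prime] (k E K : Type) [Field k] [Finite k] [CharP k p]
    [Field E] [Algebra k E] (hE : (Algebra.trdeg k E = 2 ∧ HasModel k E) ∨ HasLogModels k E)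
    [Field K] [Algebra E K]
    (n : ℕ) (V : Fin n → Submodule E K) [∀ s, FiniteDimensional E (V s)]
    (hgen : IntermediateField.adjoin E (⋃ s, (V s : Set K)) = ⊤)
    (r : ℕ) (ι : Fin r → Type) [∀ j, Fintype (ι j)] (i₀ : ∀ j, ι j)
    (c : ∀ j, ι j → E) (hc : ∀ j i, c j i ≠ 0) (d : ∀ j, ι j → Fin n → ℕ)
    (g : ∀ j i s, Fin (d j i s) → K) (hgV : ∀ j i s t, g j i s t ∈ V s)
    (hg0 : ∀ j i s t, g j i s t ≠ 0) (e : ∀ j, ι j → Fin r → ℕ) (f : Fin r → K)
    (he : ∀ j i l, e j i l ≠ 0 → l < j ∧ f l ≠ 0)
    (hf : ∀ j, f j = ∑ i, algebraMap E K (c j i) * ((∏ s, ∏ t, g j i s t) * ∏ l, f l ^ e j i l))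
    (deg : Fin r → Fin n → ZMod p)
    (hdeg : ∀ j, deg j = degree deg (d j (i₀ j)) (e j (i₀ j)))
    (hind : LinearIndependent (ZMod p) fun q : (j : Fin r) × {i : ι j // i ≠ i₀ j} =>
      degree deg (d q.1 q.2) (e q.1 q.2) - deg q.1)
    (htr : Algebra.trdeg E K + (Nat.card {j // f j = 0} : Cardinal) =
      ((∑ s, Module.finrank E (V s) : ℕ) : Cardinal))
    (Y : Scheme.{0}) (_ : IsIntegral Y) (s : Y ⟶ Spec (CommRingCat.of ℤ))
    (_ : LocallyOfFiniteType s) (_ : QuasiCompact s) (_ : Nonempty (Y.functionField ≃+* K)) :
    ∃ (X' : Scheme.{0}) (_ : IsIntegral X') (g : X' ⟶ Spec (CommRingCat.of ℤ)),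
      IsProper g ∧
      (∀ x : X',
        (((Module.finrank (IsLocalRing.ResidueField (X'.presheaf.stalk x))
            (IsLocalRing.CotangentSpace (X'.presheaf.stalk x)) : ℕ∞)) : WithBot ℕ∞)
          = ringKrullDim (X'.presheaf.stalk x)) ∧
      Nonempty (X'.functionField ≃+* Y.functionField) := by
  let aK : Algebra k K := ((algebraMap E K).comp (algebraMap k E)).toAlgebra
  have tK : IsScalarTower k E K := IsScalarTower.of_algebraMap_eq fun x => rfl
  have hE' : Pool.Agent.W418.LCI.HasLM k E := by
    rcases hE with ⟨h2, hE⟩ | hE
    · exact Pool.Agent.W418.LCI.hasLM_of_surface k E h2 hE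
    · exact Pool.Agent.W418.LCI.hasLM_of_models k E hE
  obtain ⟨Q, Ds, hst, hQ⟩ := Pool.Agent.W418.LCI.exists_sta' p k E K hE' n V hgen r ι i₀ c hc d g
    hgV hg0 e f he hf deg hdeg hind htr Empty Empty.elim (fun b => b.elim) Empty Empty.elim
    Empty.elim (fun b => b.elim) (fun b => b.elim)
  obtain ⟨X', hX', g, h1, h2, ⟨h3⟩⟩ := Pool.Agent.W418.Z.regular_of_sta hst hQ
  obtain ⟨ε⟩ := ‹Nonempty (Y.functionField ≃+* K)›
  exact ⟨X', hX', g, h1, h2, ⟨h3.trans ε.symm⟩⟩

end Pool.Agent.Results.MP_4d1008_ag.ProductsOfLinearForms
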