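import Pool.Agent.W558.WD.Asm5
import Pool.Agent.W418.Z.Reg

/-!
MP_4d1008_ag: regular models, proper over `ℤ`, of all integral schemes of finite type over `ℤ`
whose function field is `k(x 1, y 1, ..., x m, y m)(z)` with
`z ^ p = f 1 (x 1, y 1) + ... + f m (x m, y m)`, where `k` is a finite field of characteristic `p`
and the `f i` are arbitrary rational functions in two variables: purely inseparable (wild) covers
of every (even) dimension.

The geometric part is the proof of MP_b525bf_ag.PurelyInseparableCovers (Giraud's normal form on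
surfaces, products and sums, blowups in a projective line bundle). Team of helper558: helpers 578,
349, 191, 85, 64, 924, 52, 216, 177, 462, 932, 411, 499, 337, 372, 193, 150, 978, 930, 327, 376, 32,
902, 417; the passage from smooth projective models to schemes over `ℤ` is due to helpers 418, 920,
968, 918.
-/

set_option autoImplicit false

open AlgebraicGeometry CategoryTheory Pool.Agent.W558

namespace Pool.Agent.Results.MP_4d1008_ag.PurelyInseparableCovers

/-- Let `k` be a finite field of characteristic `p`, let `x i 0, x i 1` (`i = 1, ..., m`) be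
algebraically independent elements of the field extension `K` of `k`, and let `f i = P i / Q i` be
rational functions in two variables over `k`. Suppose that `K` is generated over `k` by the `x i j`
and an element `z` which is not contained in the field `k(x)` and satisfies
`z ^ p = f 1 (x 1 0, x 1 1) + ... + f m (x m 0, x m 1)`. Then every integral scheme `Y` of finite
type over `ℤ` whose function field is isomorphic to `K` has a regular model proper over `ℤ`. -/
theorem result (p : ℕ) [Fact p.Prime] (k K : Type) [Field k] [Finite k] [CharP k p]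
    [Field K] [Algebra k K] (m : ℕ) (x : Fin m → Fin 2 → K)
    (P Q : Fin m → MvPolynomial (Fin 2) k) (z : K)
    (hx : AlgebraicIndependent k (fun q : Fin m × Fin 2 => x q.1 q.2)) (hQ : ∀ i, Q i ≠ 0)
    (hz : z ^ p = ∑ i, MvPolynomial.aeval (x i) (P i) / MvPolynomial.aeval (x i) (Q i))
    (hzx : z ∉ IntermediateField.adjoin k (Set.range fun q : Fin m × Fin 2 => x q.1 q.2))
    (hgen : IntermediateField.adjoin k
      (insert z (Set.range fun q : Fin m × Fin 2 => x q.1 q.2)) = ⊤)
    (Y : Scheme.{0}) (_ : IsIntegral Y) (s : Y ⟶ Spec (CommRingCat.of ℤ))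
    (_ : LocallyOfFiniteType s) (_ : QuasiCompact s) (_ : Nonempty (Y.functionField ≃+* K)) :
    ∃ (X' : Scheme.{0}) (_ : IsIntegral X') (g : X' ⟶ Spec (CommRingCat.of ℤ)),
      IsProper g ∧
      (∀ x : X',
        (((Module.finrank (IsLocalRing.ResidueField (X'.presheaf.stalk x))
            (IsLocalRing.CotangentSpace (X'.presheaf.stalk x)) : ℕ∞)) : WithBot ℕ∞)
          = ringKrullDim (X'.presheaf.stalk x)) ∧
      Nonempty (X'.functionField ≃+* Y.functionField) := by
  obtain ⟨T, I, _, _, M, Γ, -, hR⟩ := wild_model p k K m x P Q z hx hQ hz hzx hgen Empty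
    (fun b => b.elim) (fun b => b.elim) (fun b => b.elim) (fun b => b.elim) (fun b => b.elim)
    (fun b => b.elim)
  obtain ⟨X', hX', g, h1, h2, ⟨h3⟩⟩ := Pool.Agent.W418.Z.regular_of_LM M (fun t y => by
    obtain ⟨a, ha, b, hb, hb0, h⟩ := hR t y
    exact ⟨a, ha, b, hb, hb0, by rw [h, div_eq_mul_inv]⟩)
  obtain ⟨ε⟩ := ‹Nonempty (Y.functionField ≃+* K)›
  exact ⟨X', hX', g, h1, h2, ⟨h3.trans ε.symm⟩⟩

end Pool.Agent.Results.MP_4d1008_ag.PurelyInseparableCovers
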