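import Pool.Agent.W559.Wr.All

/-!
MP_4d1008_ag: regular proper models over `ℤ` of the quotients of powers of smooth projective
varieties over finite fields of characteristic `p` by permutation groups which are obtained from
cyclic groups of order dividing `p ^ 2 * m` by direct and wreath products, in particular by the
Sylow `p`-subgroups of the symmetric groups.
-/

set_option autoImplicit false

open AlgebraicGeometry CategoryTheory TensorProduct

namespace Pool.Agent.Results.MP_4d1008_ag.WreathQuotients

/-- The field extension `K` of `k` is the function field of a smooth projective variety over `k`: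
there are nonzero elements `z 0, …, z l` (homogeneous coordinates) whose ratios generate `K` and
such that every algebra `k[z 0 / z i, …, z l / z i]` is smooth over `k`. -/
def HasSmoothProjectiveModel (k K : Type) [Field k] [Field K] [Algebra k K] : Prop :=
  ∃ (l : ℕ) (z : Fin (l + 1) → K), (∀ i, z i ≠ 0) ∧
    (∀ i, Algebra.Smooth k (Algebra.adjoin k (Set.range fun j => z j / z i))) ∧
    IntermediateField.adjoin k (Set.range fun j => z j / z 0) = ⊤

section

variable {k K L : Type} [Field k] [Field K] [Algebra k K] [Field L] [Algebra k L]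

/-- The linear map from the tensor power of `K` to `L` which maps `⨂ x i` to the product of the
`e i (x i)`. -/
noncomputable def mulMap {ι : Type} [Fintype ι] (e : ι → K →ₐ[k] L) :
    (⨂[k] _ : ι, K) →ₗ[k] L :=
  PiTensorProduct.lift ((MultilinearMap.mkPiAlgebra k ι L).compLinearMap
    fun i => (e i).toLinearMap)

/-- The automorphisms of `L` over `k` which permute the copies `e i (K)` of `K` by an element of
the permutation group `P`: `σ ∘ e i = e (g i)` for some `g` in `P`. -/
def permutations {ι : Type} (e : ι → K →ₐ[k] L) (P : Subgroup (Equiv.Perm ι)) :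
    Subgroup (L ≃ₐ[k] L) where
  carrier := {σ | ∃ g ∈ P, ∀ i x, σ (e i x) = e (g i) x}
  mul_mem' := (Pool.Agent.W559.Wr.permGrp e P).mul_mem'
  one_mem' := (Pool.Agent.W559.Wr.permGrp e P).one_mem'
  inv_mem' := (Pool.Agent.W559.Wr.permGrp e P).inv_mem'

end

/-- The direct product of two permutation groups, acting on the disjoint union. -/
def directProduct {ι ι' : Type} (P : Subgroup (Equiv.Perm ι)) (P' : Subgroup (Equiv.Perm ι')) :
    Subgroup (Equiv.Perm (ι ⊕ ι')) where
  carrier := {f | ∃ g ∈ P, ∃ g' ∈ P', (∀ i, f (Sum.inl i) = Sum.inl (g i)) ∧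
    ∀ i, f (Sum.inr i) = Sum.inr (g' i)}
  mul_mem' := (Pool.Agent.W559.Wr.prodGrp P P').mul_mem'
  one_mem' := (Pool.Agent.W559.Wr.prodGrp P P').one_mem'
  inv_mem' := (Pool.Agent.W559.Wr.prodGrp P P').inv_mem'

/-- The wreath product of two permutation groups, acting on the product: it consists of the
permutations `(i, j) ↦ (g j (i), h (j))` with all `g j` in `P` and `h` in `P'`. -/
def wreathProduct {ι ι' : Type} (P : Subgroup (Equiv.Perm ι)) (P' : Subgroup (Equiv.Perm ι')) :
    Subgroup (Equiv.Perm (ι × ι')) where
  carrier := {f | ∃ h ∈ P', ∃ g : ι' → Equiv.Perm ι, (∀ j, g j ∈ P) ∧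
    ∀ i j, f (i, j) = (g j i, h j)}
  mul_mem' := (Pool.Agent.W559.Wr.wrGrp P P').mul_mem'
  one_mem' := (Pool.Agent.W559.Wr.wrGrp P P').one_mem'
  inv_mem' := (Pool.Agent.W559.Wr.wrGrp P P').inv_mem'

/-- The permutation groups which are obtained from the cyclic permutation groups generated by
permutations `π` with `π ^ N = 1` by direct products, wreath products and relabelling. -/
inductive IsTower (N : ℕ) : (ι : Type) → Subgroup (Equiv.Perm ι) → Prop
  | cyclic (n : ℕ) (π : Equiv.Perm (Fin n)) (hπ : π ^ N = 1) :
      IsTower N (Fin n) (Subgroup.zpowers π)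
  | product (ι ι' : Type) (P : Subgroup (Equiv.Perm ι)) (P' : Subgroup (Equiv.Perm ι')) :
      IsTower N ι P → IsTower N ι' P' → IsTower N (ι ⊕ ι') (directProduct P P')
  | wreath (ι ι' : Type) (P : Subgroup (Equiv.Perm ι)) (P' : Subgroup (Equiv.Perm ι')) :
      IsTower N ι P → IsTower N ι' P' → IsTower N (ι × ι') (wreathProduct P P')
  | relabel (ι ι' : Type) (f : ι ≃ ι') (P : Subgroup (Equiv.Perm ι)) : IsTower N ι P →
      IsTower N ι' (P.map (f.permCongrHom : Equiv.Perm ι ≃* Equiv.Perm ι').toMonoidHom)

/-- Every integral scheme of finite type over `ℤ` with function field isomorphic to the field `F`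
has a regular model which is proper over `ℤ`. -/
def HasRegularModels (F : Type) [Field F] : Prop :=
  ∀ (Y : Scheme.{0}) (_ : IsIntegral Y) (s : Y ⟶ Spec (CommRingCat.of ℤ))
    (_ : LocallyOfFiniteType s) (_ : QuasiCompact s) (_ : Nonempty (Y.functionField ≃+* F)),
    ∃ (X' : Scheme.{0}) (_ : IsIntegral X') (g : X' ⟶ Spec (CommRingCat.of ℤ)),
      IsProper g ∧
      (∀ x : X',
        (((Module.finrank (IsLocalRing.ResidueField (X'.presheaf.stalk x))
            (IsLocalRing.CotangentSpace (X'.presheaf.stalk x)) : ℕ∞)) : WithBot ℕ∞)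
          = ringKrullDim (X'.presheaf.stalk x)) ∧
      Nonempty (X'.functionField ≃+* Y.functionField)

theorem tow_of_tower {N : ℕ} {ι : Type} {P : Subgroup (Equiv.Perm ι)} (h : IsTower N ι P) :
    Pool.Agent.W559.Wr.Tow N ι P := by
  induction h with
  | cyclic n π hπ => exact Pool.Agent.W559.Wr.Tow.cyc n π hπ
  | product ι ι' P P' _ _ h h' => exact Pool.Agent.W559.Wr.Tow.prod ι ι' P P' h h'
  | wreath ι ι' P P' _ _ h h' => exact Pool.Agent.W559.Wr.Tow.wr ι ι' P P' h h'
  | relabel ι ι' f P _ h => exact Pool.Agent.W559.Wr.Tow.rel ι ι' f P h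

/-- Let `k` be a finite field of characteristic `p`, `K` the function field of a smooth projective
variety `W` over `k`, `ι` a finite set and `L` a field extension of `k` generated by linearly
disjoint copies `e i (K)`, `i ∈ ι`, of `K`, i.e. the function field of the power `W ^ ι`. Let `P`
be a group of permutations of `ι`, and suppose that

* `P` is a Sylow `p`-subgroup of the symmetric group of `ι`, or
* `P` is obtained by direct products and wreath products from cyclic permutation groups of orders
  dividing `p ^ 2 * m`, and `k` contains a primitive `m`-th root of unity.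

Then every integral scheme of finite type over `ℤ` which is birational to the quotient `W ^ ι / P`
has a regular model proper over `ℤ`, and the function field of `W ^ ι / P` is again the function
field of a smooth projective variety over `k`. -/
theorem result (p : ℕ) [Fact p.Prime] (k : Type) [Field k] [Finite k] [CharP k p]
    (K : Type) [Field K] [Algebra k K] (hK : HasSmoothProjectiveModel k K)
    (ι : Type) [Fintype ι] (L : Type) [Field L] [Algebra k L] (e : ι → K →ₐ[k] L)
    (hdisj : Function.Injective (mulMap e)) (hgen : ⨆ i, (e i).fieldRange = ⊤)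
    (P : Subgroup (Equiv.Perm ι))
    (hP : (∃ S : Sylow p (Equiv.Perm ι), P = S) ∨
      ∃ (m : ℕ) (ω : k), 0 < m ∧ IsPrimitiveRoot ω m ∧ IsTower (p ^ 2 * m) ι P) :
    HasRegularModels (IntermediateField.fixedField (permutations e P)) ∧
    HasSmoothProjectiveModel k (IntermediateField.fixedField (permutations e P)) := by
  classical
  have hp : p.Prime := Fact.out
  have hpk : (p : k) = 0 := CharP.cast_eq_zero k p
  have hQ : Pool.Agent.W559.Wr.QQ k ι P := by
    rcases hP with ⟨S, rfl⟩ | ⟨m, ω, hm, hω, hT⟩
    · exact Pool.Agent.W559.Wr.qq_sylow hpk S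
    · have h1 := tow_of_tower hT
      rw [pow_two] at h1
      exact Pool.Agent.W559.Wr.qq_tow hp hpk (Pool.Agent.W559.Et.cast_ne hm hω) ⟨ω, hω⟩ h1 _
  have h1 : HasSmoothProjectiveModel k (IntermediateField.fixedField (permutations e P)) :=
    hQ K L e hdisj hgen hK
  refine ⟨?_, h1⟩
  intro Y _ s _ _ hY
  obtain ⟨X', hX', g, h2, h3, ⟨h4⟩⟩ := Pool.Agent.W559.Wr.regular_of_spm h1
  obtain ⟨ε⟩ := hY
  exact ⟨X', hX', g, h2, h3, ⟨h4.trans ε.symm⟩⟩

end Pool.Agent.Results.MP_4d1008_ag.WreathQuotients
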